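import Pool.Agent.Helper26.DD.AllD

/-!
MP_542c23_gt, Q1: every dendron embeds in C(Y) for some hereditarily indecomposable continuum Y.
The statement uses the definitions of the problem file word for word and Mathlib's Vietoris topology.
-/

set_option autoImplicit false

open Set Topology TopologicalSpace

namespace Pool.Agent.Results.MP_542c23_gt.AllDendrons

/-- A continuum is a nonempty compact connected Hausdorff space. -/
def IsContinuum (X : Type) [TopologicalSpace X] : Prop :=
  CompactSpace X ∧ ConnectedSpace X ∧ T2Space X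

/-- A dendron is a continuum in which for any two distinct points x, y there is a point z such that
x and y lie in different components of the complement of z. -/
def IsDendron (X : Type) [TopologicalSpace X] : Prop :=
  IsContinuum X ∧ ∀ x y : X, x ≠ y → ∃ z : X, x ∈ ({z}ᶜ : Set X) ∧ y ∈ ({z}ᶜ : Set X) ∧
    connectedComponentIn ({z}ᶜ) x ≠ connectedComponentIn ({z}ᶜ) y

/-- A subcontinuum is a closed connected set (connected sets are nonempty in Mathlib). -/
def IsSubcontinuum {Y : Type} [TopologicalSpace Y] (A : Set Y) : Prop :=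
  IsClosed A ∧ IsConnected A

/-- A subcontinuum is indecomposable if it is not the union of two proper subcontinua. -/
def IsIndecomposable {Y : Type} [TopologicalSpace Y] (Z : Set Y) : Prop :=
  ¬ ∃ A B : Set Y, IsSubcontinuum A ∧ IsSubcontinuum B ∧ A ⊂ Z ∧ B ⊂ Z ∧ A ∪ B = Z

/-- A continuum is hereditarily indecomposable if every subcontinuum of it is indecomposable. -/
def IsHereditarilyIndecomposable (Y : Type) [TopologicalSpace Y] : Prop :=
  IsContinuum Y ∧ ∀ Z : Set Y, IsSubcontinuum Z → IsIndecomposable Z

/-- The hyperspace C(Y): the connected nonempty compact subsets of Y, with the topology induced by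
Mathlib's Vietoris topology on the nonempty compact subsets. -/
abbrev HyperC (Y : Type) [TopologicalSpace Y] : Type :=
  {K : NonemptyCompacts Y // IsConnected (K : Set Y)}

/-- Every dendron X embeds in C(Y) for some hereditarily indecomposable continuum Y. -/
theorem result (X : Type) [TopologicalSpace X] (hX : IsDendron X) :
    ∃ (Y : Type) (_ : TopologicalSpace Y), IsHereditarilyIndecomposable Y ∧
      ∃ f : X → HyperC Y, IsEmbedding f := by
  obtain ⟨⟨h1, h2, h3⟩, h4⟩ := hX
  have h5 : ∀ x y : X, x ≠ y → ∃ z : X, x ≠ z ∧ y ≠ z ∧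
      connectedComponentIn ({z}ᶜ) x ≠ connectedComponentIn ({z}ᶜ) y := by
    intro x y hxy
    obtain ⟨z, hx, hy, hz⟩ := h4 x y hxy
    exact ⟨z, by simpa using hx, by simpa using hy, hz⟩
  obtain ⟨Y, tY, hc, hconn, ht2, hHI, f, hf⟩ := Pool.Agent.H26DE.allDendrons X h5
  exact ⟨Y, tY, ⟨⟨hc, hconn, ht2⟩, hHI⟩, f, hf⟩

end Pool.Agent.Results.MP_542c23_gt.AllDendrons
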